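import Pool.Agent.Helper15.BP.Ent

/-!
# Laws on a finite abelian group: continuity, the case `d = 0`, limits

`PF-LIM` of project BP: from laws with `d[p;p]` tending to zero to a coset of a subgroup.
-/

set_option autoImplicit false
set_option linter.unusedSectionVars false

namespace Pool.Agent.Helper5.PF

open Finset Pool.Agent.Helper15.BP

section Transfer

variable {Ω Ω' : Type*} [Fintype Ω] [Fintype Ω']

/-- sums over the space as sums over the target -/
theorem sum_comp {α : Type*} [Fintype α] (w : Ω → ℝ) (f : Ω → α) (F : α → ℝ) :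
    ∑ o, w o * F (f o) = ∑ a, pr w f a * F a := by
  classical
  unfold pr
  simp_rw [Finset.sum_mul]
  rw [Finset.sum_comm]
  refine Finset.sum_congr rfl fun o _ => ?_
  rw [Finset.sum_eq_single (f o)]
  · simp
  · intro b _ hb
    rw [if_neg (Ne.symm hb), zero_mul]
  · intro h
    exact absurd (Finset.mem_univ _) h

theorem isPr_pr {α : Type*} [Fintype α] {w : Ω → ℝ} (hw : IsPr w) (f : Ω → α) :
    IsPr (pr w f) := by
  refine ⟨fun a => pr_nonneg hw f a, ?_⟩
  have h := sum_comp w f (fun _ => 1)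
  simp only [mul_one] at h
  rw [← h, hw.sum_one]

/-- the mass of a function of `f` -/
theorem pr_comp {α β : Type*} [Fintype α] (w : Ω → ℝ) (f : Ω → α) (F : α → β) (b : β) :
    pr w (fun o => F (f o)) b = pr (pr w f) F b := by
  classical
  have h := sum_comp w f (fun a => if F a = b then 1 else 0)
  unfold pr at h ⊢
  simpa using h

/-- entropy depends only on the law -/
theorem Ent_comp {α β : Type*} [Fintype α] (w : Ω → ℝ) (f : Ω → α) (F : α → β) :
    Ent w (fun o => F (f o)) = Ent (pr w f) F := by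
  unfold Ent
  have h := sum_comp w f (fun a => -Real.log (pr (pr w f) F (F a)))
  rw [← h]
  exact Finset.sum_congr rfl fun o _ => by rw [pr_comp]

theorem Ent_law {α : Type*} [Fintype α] (w : Ω → ℝ) (f : Ω → α) :
    Ent w f = Ent (pr w f) (fun a => a) := Ent_comp w f (fun a => a)

/-- independent sums depend only on the laws -/
theorem Ent_add_law {G : Type*} [Fintype G] [Add G] (w : Ω → ℝ) (w' : Ω' → ℝ) (f : Ω → G)
    (g : Ω' → G) :
    Ent (prodW w w') (fun p => f p.1 + g p.2) =
      Ent (prodW (pr w f) (pr w' g)) (fun z => z.1 + z.2) := by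
  have h1 : pr (prodW w w') (fun p => (f p.1, g p.2)) = prodW (pr w f) (pr w' g) := by
    funext z
    obtain ⟨a, b⟩ := z
    rw [pr_prod]
    rfl
  rw [← h1]
  exact Ent_comp (prodW w w') (fun p => (f p.1, g p.2)) (fun z : G × G => z.1 + z.2)

theorem pr_id {α : Type*} [Fintype α] (p : α → ℝ) : pr p (fun a => a) = p := by
  classical
  funext a
  unfold pr
  rw [Finset.sum_ite_eq']
  simp

/-- entropy as a sum over the target -/
theorem Ent_eq_sum {α : Type*} [Fintype α] (w : Ω → ℝ) (f : Ω → α) :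
    Ent w f = ∑ a, Real.negMulLog (pr w f a) := by
  have h := sum_comp w f (fun a => -Real.log (pr w f a))
  unfold Ent
  rw [h]
  refine Finset.sum_congr rfl fun a _ => ?_
  unfold Real.negMulLog
  ring

theorem Ent_id {α : Type*} [Fintype α] (p : α → ℝ) :
    Ent p (fun a => a) = ∑ a, Real.negMulLog (p a) := by
  rw [Ent_eq_sum, pr_id]

end Transfer

section Group

variable {G : Type*} [AddCommGroup G] [Fintype G]

/-- convolution -/
theorem pr_add (p q : G → ℝ) (a : G) :
    pr (prodW p q) (fun z => z.1 + z.2) a = ∑ x, p x * q (a - x) := by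
  classical
  unfold pr prodW
  rw [Fintype.sum_prod_type]
  refine Finset.sum_congr rfl fun x _ => ?_
  simp only
  rw [Finset.sum_eq_single (a - x)]
  · simp
  · intro y _ hy
    rw [if_neg]
    intro h
    apply hy
    rw [← h]
    abel
  · intro h
    exact absurd (Finset.mem_univ _) h

theorem cont_id : Continuous fun p : G → ℝ => Ent p (fun a => a) := by
  have h : (fun p : G → ℝ => Ent p (fun a => a)) = fun p => ∑ a, Real.negMulLog (p a) := by
    funext p
    exact Ent_id p
  rw [h]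
  exact continuous_finsetSum _ fun a _ => Real.continuous_negMulLog.comp (continuous_apply a)

theorem cont_add : Continuous fun p : (G → ℝ) × (G → ℝ) =>
    Ent (prodW p.1 p.2) (fun z : G × G => z.1 + z.2) := by
  have h : (fun p : (G → ℝ) × (G → ℝ) => Ent (prodW p.1 p.2) (fun z : G × G => z.1 + z.2)) =
      fun p => ∑ a, Real.negMulLog (∑ x, p.1 x * p.2 (a - x)) := by
    funext p
    rw [Ent_eq_sum]
    exact Finset.sum_congr rfl fun a _ => by rw [pr_add]
  rw [h]
  refine continuous_finsetSum _ fun a _ => Real.continuous_negMulLog.comp ?_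
  refine continuous_finsetSum _ fun x _ => ?_
  exact ((continuous_apply x).comp continuous_fst).mul
    ((continuous_apply (a - x)).comp continuous_snd)

theorem isPr_iff {p : G → ℝ} : IsPr p ↔ p ∈ stdSimplex ℝ G :=
  ⟨fun h => ⟨h.nonneg, h.sum_one⟩, fun h => ⟨h.1, h.2⟩⟩

/-- sums do not decrease entropy -/
theorem Ent_le_add {p q : G → ℝ} (hp : IsPr p) (hq : IsPr q) :
    Ent q (fun a => a) ≤ Ent (prodW p q) (fun z => z.1 + z.2) := by
  have hpq := hp.prod hq
  -- `H(X + Y | X) = H(Y)`
  have h1 : Ent (prodW p q) (fun z => (z.1 + z.2, z.1)) =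
      Ent p (fun a => a) + Ent q (fun a => a) := by
    rw [← Ent_prod hp hq (fun a => a) (fun a => a)]
    refine Ent_congr fun o o' => ?_
    simp only [Prod.mk.injEq]
    constructor
    · rintro ⟨h1, h2⟩
      rw [h2] at h1
      exact ⟨h2, add_left_cancel h1⟩
    · rintro ⟨h1, h2⟩
      rw [h1, h2]
      exact ⟨rfl, rfl⟩
  have h2 := Ent_submod hpq (fun z : G × G => z.1 + z.2) (fun z : G × G => z.1) (fun _ => ())
  have h3 : Ent (prodW p q) (fun z : G × G => (z.1 + z.2, z.1, ())) =
      Ent (prodW p q) (fun z => (z.1 + z.2, z.1)) :=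
    Ent_congr fun o o' => by simp only [Prod.mk.injEq, and_true]
  have h4 : Ent (prodW p q) (fun z : G × G => (z.1 + z.2, ())) =
      Ent (prodW p q) (fun z => z.1 + z.2) :=
    Ent_congr fun o o' => by simp only [Prod.mk.injEq, and_true]
  have h5 : Ent (prodW p q) (fun z : G × G => (z.1, ())) =
      Ent (prodW p q) (fun z : G × G => z.1) :=
    Ent_congr fun o o' => by simp only [Prod.mk.injEq, and_true]
  have h6 : Ent (prodW p q) (fun z : G × G => z.1) = Ent p (fun a => a) :=
    Ent_fst hq (fun a => a)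
  rw [h3, h4, h5, h6, h1, Ent_const hpq] at h2
  linarith

/-- the uniform law on a coset -/
noncomputable def cosetLaw (H : AddSubgroup G) (x₀ : G) (y : G) : ℝ := by
  classical exact if y - x₀ ∈ H then (Nat.card H : ℝ)⁻¹ else 0

/-- **The case `d = 0`.** -/
theorem coset_of_eq {p : G → ℝ} (hp : IsPr p)
    (h : Ent (prodW p p) (fun z => z.1 + z.2) = Ent p (fun a => a)) :
    ∃ (H : AddSubgroup G) (x₀ : G), p = cosetLaw H x₀ := by
  classical
  -- equality in Jensen
  have hJ : ∀ y, ∑ x, p x * Real.negMulLog (p (y - x)) ≤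
      Real.negMulLog (∑ x, p x * p (y - x)) := by
    intro y
    have h1 := Real.concaveOn_negMulLog.le_map_sum (t := Finset.univ) (w := p)
      (p := fun x => p (y - x)) (fun x _ => hp.nonneg x) hp.sum_one
      (fun x _ => hp.nonneg (y - x))
    simpa using h1
  have hsum : ∑ y, ∑ x, p x * Real.negMulLog (p (y - x)) =
      ∑ y, Real.negMulLog (∑ x, p x * p (y - x)) := by
    have h1 : ∑ y, Real.negMulLog (∑ x, p x * p (y - x)) =
        Ent (prodW p p) (fun z => z.1 + z.2) := by
      rw [Ent_eq_sum]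
      exact Finset.sum_congr rfl fun a _ => by rw [pr_add]
    rw [h1, h, Ent_id, Finset.sum_comm]
    have h2 : ∀ x, ∑ y, p x * Real.negMulLog (p (y - x)) =
        p x * ∑ a, Real.negMulLog (p a) := by
      intro x
      rw [← Finset.mul_sum]
      congr 1
      exact Fintype.sum_equiv (Equiv.subRight x) _ _ fun y => rfl
    rw [Finset.sum_congr rfl fun x _ => h2 x, ← Finset.sum_mul, hp.sum_one, one_mul]
  have hE : ∀ y, ∑ x, p x * Real.negMulLog (p (y - x)) =
      Real.negMulLog (∑ x, p x * p (y - x)) := by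
    intro y
    have h1 := (Finset.sum_eq_sum_iff_of_le fun y _ => hJ y).1 hsum
    exact h1 y (Finset.mem_univ y)
  have hS : ∀ y x, p x ≠ 0 → p (y - x) = ∑ x, p x * p (y - x) := by
    intro y x hx
    have h1 := (Real.strictConcaveOn_negMulLog.map_sum_eq_iff' (t := Finset.univ) (w := p)
      (p := fun x => p (y - x)) (fun x _ => hp.nonneg x) hp.sum_one
      (fun x _ => hp.nonneg (y - x))).1 (by simpa using (hE y).symm)
    simpa using h1 x (Finset.mem_univ x) hx
  -- the stabiliser
  let H : AddSubgroup G :=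
    { carrier := {t | ∀ u, p (u + t) = p u}
      add_mem' := by
        intro a b ha hb u
        rw [← add_assoc, hb, ha]
      zero_mem' := by
        intro u
        rw [add_zero]
      neg_mem' := by
        intro a ha u
        have := ha (u + -a)
        rw [neg_add_cancel_right] at this
        exact this.symm }
  have hdiff : ∀ x x', p x ≠ 0 → p x' ≠ 0 → x - x' ∈ H := by
    intro x x' hx hx' u
    have h1 := hS (u + x) x hx
    have h2 := hS (u + x) x' hx'
    rw [← h1] at h2
    have e1 : u + x - x' = u + (x - x') := by abel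
    have e2 : u + x - x = u := by abel
    rw [e1, e2] at h2
    exact h2
  obtain ⟨x₀, hx₀⟩ : ∃ x, p x ≠ 0 := by
    by_contra hcon
    push Not at hcon
    have h1 := hp.sum_one
    rw [Finset.sum_eq_zero fun x _ => hcon x] at h1
    exact zero_ne_one h1
  have hval : ∀ y, p y = if y - x₀ ∈ H then p x₀ else 0 := by
    intro y
    by_cases hy : y - x₀ ∈ H
    · rw [if_pos hy]
      have h1 := hy x₀
      have e1 : x₀ + (y - x₀) = y := by abel
      rw [e1] at h1
      exact h1
    · rw [if_neg hy]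
      by_contra h0
      exact hy (hdiff y x₀ h0 hx₀)
  have hcard : (Nat.card H : ℝ) * p x₀ = 1 := by
    have h1 := hp.sum_one
    rw [Finset.sum_congr rfl fun y _ => hval y] at h1
    rw [← h1, ← Finset.sum_filter, Finset.sum_const, nsmul_eq_mul]
    congr 2
    rw [Nat.card_eq_fintype_card, Fintype.card_subtype]
    refine Finset.card_bij (fun a _ => a + x₀) ?_ ?_ ?_
    · intro a ha
      rw [Finset.mem_filter] at ha ⊢
      refine ⟨Finset.mem_univ _, ?_⟩
      rw [add_sub_cancel_right]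
      exact ha.2
    · intro a _ b _ hab
      exact add_right_cancel hab
    · intro b hb
      rw [Finset.mem_filter] at hb
      refine ⟨b - x₀, ?_, by abel⟩
      rw [Finset.mem_filter]
      exact ⟨Finset.mem_univ _, hb.2⟩
  refine ⟨H, x₀, ?_⟩
  funext y
  unfold cosetLaw
  rw [hval y]
  have h2 : p x₀ = (Nat.card H : ℝ)⁻¹ := by
    have h3 : (Nat.card H : ℝ) ≠ 0 := by
      intro h0
      rw [h0, zero_mul] at hcard
      exact zero_ne_one hcard
    field_simp
    linarith
  rw [h2]

/-- limits: from laws with small `d[p;p]` to a coset -/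
theorem exists_coset {p₀ : G → ℝ} {c₀ : ℝ}
    (h : ∀ ε : ℝ, 0 < ε → ∃ p : G → ℝ, IsPr p ∧
      Ent (prodW p p) (fun z => z.1 + z.2) - Ent p (fun a => a) ≤ ε ∧
      Ent (prodW p₀ p) (fun z => z.1 + z.2) - Ent p₀ (fun a => a) / 2 -
        Ent p (fun a => a) / 2 ≤ c₀ + ε) :
    ∃ (H : AddSubgroup G) (x₀ : G),
      Ent (prodW p₀ (cosetLaw H x₀)) (fun z => z.1 + z.2) - Ent p₀ (fun a => a) / 2 -
        Ent (cosetLaw H x₀) (fun a => a) / 2 ≤ c₀ := by
  classical
  let Φ : (G → ℝ) → ℝ := fun p =>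
    max (Ent (prodW p p) (fun z => z.1 + z.2) - Ent p (fun a => a))
      (Ent (prodW p₀ p) (fun z => z.1 + z.2) - Ent p₀ (fun a => a) / 2 -
        Ent p (fun a => a) / 2 - c₀)
  have hc1 : Continuous fun p : G → ℝ => Ent (prodW p p) (fun z : G × G => z.1 + z.2) :=
    cont_add.comp (continuous_id.prodMk continuous_id)
  have hc2 : Continuous fun p : G → ℝ => Ent (prodW p₀ p) (fun z : G × G => z.1 + z.2) :=
    cont_add.comp (continuous_const.prodMk continuous_id)
  have hc3 : Continuous fun p : G → ℝ => Ent p (fun a => a) := cont_id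
  have hΦ : Continuous Φ :=
    (hc1.sub hc3).max (((hc2.sub continuous_const).sub (hc3.div_const 2)).sub continuous_const)
  obtain ⟨p₁, hp₁, -⟩ := h 1 one_pos
  have hcomp : IsCompact (stdSimplex ℝ G) := isCompact_stdSimplex ℝ G
  obtain ⟨p, hp, hmin⟩ := hcomp.exists_isMinOn ⟨p₁, isPr_iff.1 hp₁⟩ hΦ.continuousOn
  have hle : Φ p ≤ 0 := by
    refine le_of_forall_pos_le_add fun ε hε => ?_
    obtain ⟨q, hq, h1, h2⟩ := h ε hε
    have h3 : Φ p ≤ Φ q := hmin (isPr_iff.1 hq)
    refine h3.trans ?_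
    rw [zero_add]
    exact max_le h1 (by linarith)
  have hpr : IsPr p := isPr_iff.2 hp
  have h1 : Ent (prodW p p) (fun z => z.1 + z.2) - Ent p (fun a => a) ≤ 0 :=
    (le_max_left _ _).trans hle
  have h2 : Ent (prodW p₀ p) (fun z => z.1 + z.2) - Ent p₀ (fun a => a) / 2 -
      Ent p (fun a => a) / 2 - c₀ ≤ 0 := (le_max_right _ _).trans hle
  obtain ⟨H, x₀, rfl⟩ := coset_of_eq hpr (le_antisymm (by linarith) (Ent_le_add hpr hpr))
  exact ⟨H, x₀, by linarith⟩

theorem card_coset (H : AddSubgroup G) (x₀ : G) [DecidablePred fun y => y - x₀ ∈ H] :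
    (Finset.univ.filter fun y => y - x₀ ∈ H).card = Nat.card H := by
  classical
  rw [Nat.card_eq_fintype_card, Fintype.card_subtype]
  refine (Finset.card_bij (fun a _ => a + x₀) ?_ ?_ ?_).symm
  · intro a ha
    rw [Finset.mem_filter] at ha ⊢
    refine ⟨Finset.mem_univ _, ?_⟩
    rw [add_sub_cancel_right]
    exact ha.2
  · intro a _ b _ hab
    exact add_right_cancel hab
  · intro b hb
    rw [Finset.mem_filter] at hb
    refine ⟨b - x₀, ?_, by abel⟩
    rw [Finset.mem_filter]
    exact ⟨Finset.mem_univ _, hb.2⟩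

theorem card_pos' (H : AddSubgroup G) : (0 : ℝ) < Nat.card H := by
  exact_mod_cast Nat.card_pos

theorem isPr_coset (H : AddSubgroup G) (x₀ : G) : IsPr (cosetLaw H x₀) := by
  classical
  have hpos := card_pos' H
  refine ⟨fun y => ?_, ?_⟩
  · unfold cosetLaw
    split_ifs
    · exact inv_nonneg.2 hpos.le
    · exact le_rfl
  · unfold cosetLaw
    rw [← Finset.sum_filter, Finset.sum_const, nsmul_eq_mul, card_coset, mul_inv_cancel₀ hpos.ne']

/-- `H(U_H) = log |H|` -/
theorem Ent_coset (H : AddSubgroup G) (x₀ : G) :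
    Ent (cosetLaw H x₀) (fun a => a) = Real.log (Nat.card H) := by
  classical
  have hsum := (isPr_coset H x₀).sum_one
  have h1 : ∀ y, Real.negMulLog (cosetLaw H x₀ y) = cosetLaw H x₀ y * Real.log (Nat.card H) := by
    intro y
    unfold cosetLaw
    split_ifs
    · unfold Real.negMulLog
      rw [Real.log_inv]
      ring
    · simp
  rw [Ent_id, Finset.sum_congr rfl fun y _ => h1 y, ← Finset.sum_mul, hsum, one_mul]

/-- `H(X + U_H) = H(X mod H) + log |H|` -/
theorem Ent_add_coset {p₀ : G → ℝ} (hp₀ : IsPr p₀) (H : AddSubgroup G) (x₀ : G) :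
    Ent (prodW p₀ (cosetLaw H x₀)) (fun z => z.1 + z.2) =
      Ent p₀ (fun a => (QuotientAddGroup.mk a : G ⧸ H)) + Real.log (Nat.card H) := by
  classical
  have hpos := card_pos' H
  have hq := isPr_coset H x₀
  have hpq := hp₀.prod hq
  set w := prodW p₀ (cosetLaw H x₀) with hw
  have hkey : ∀ z : G × G, w z * (-Real.log (pr w (fun z => z.1 + z.2) (z.1 + z.2))) =
      w z * (-Real.log (pr p₀ (fun a => (QuotientAddGroup.mk a : G ⧸ H))
        (QuotientAddGroup.mk z.1)) + Real.log (Nat.card H)) := by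
    intro z
    rcases (hpq.nonneg z).eq_or_lt with h0 | h0
    · rw [← h0, zero_mul, zero_mul]
    · have hz1 : p₀ z.1 ≠ 0 := by
        intro h1
        have h2 : w z = 0 := by rw [hw]; unfold prodW; rw [h1, zero_mul]
        rw [h2] at h0
        exact lt_irrefl _ h0
      have hz2 : z.2 - x₀ ∈ H := by
        by_contra h1
        have h3 : cosetLaw H x₀ z.2 = 0 := by unfold cosetLaw; rw [if_neg h1]
        have h2 : w z = 0 := by rw [hw]; unfold prodW; rw [h3, mul_zero]
        rw [h2] at h0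
        exact lt_irrefl _ h0
      have h1 : pr w (fun z => z.1 + z.2) (z.1 + z.2) =
          pr p₀ (fun a => (QuotientAddGroup.mk a : G ⧸ H)) (QuotientAddGroup.mk z.1) *
            (Nat.card H : ℝ)⁻¹ := by
        rw [hw, pr_add]
        unfold pr
        rw [Finset.sum_mul]
        refine Finset.sum_congr rfl fun x _ => ?_
        unfold cosetLaw
        have h2 : z.1 + z.2 - x - x₀ ∈ H ↔
            (QuotientAddGroup.mk x : G ⧸ H) = QuotientAddGroup.mk z.1 := by
          rw [QuotientAddGroup.eq]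
          have e1 : z.1 + z.2 - x - x₀ = (-x + z.1) + (z.2 - x₀) := by abel
          rw [e1]
          exact AddSubgroup.add_mem_cancel_right H hz2
        by_cases h3 : z.1 + z.2 - x - x₀ ∈ H
        · rw [if_pos h3, if_pos (h2.1 h3)]
        · rw [if_neg h3, if_neg fun h4 => h3 (h2.2 h4), mul_zero, zero_mul]
      have h2 : 0 < pr p₀ (fun a => (QuotientAddGroup.mk a : G ⧸ H)) (QuotientAddGroup.mk z.1) :=
        pr_pos hp₀ (fun a => (QuotientAddGroup.mk a : G ⧸ H))
          (lt_of_le_of_ne (hp₀.nonneg _) (Ne.symm hz1))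
      rw [h1, Real.log_mul h2.ne' (inv_ne_zero hpos.ne'), Real.log_inv]
      ring
  have h3 : Ent w (fun z : G × G => z.1 + z.2) = ∑ z, w z *
      (-Real.log (pr p₀ (fun a => (QuotientAddGroup.mk a : G ⧸ H))
        (QuotientAddGroup.mk z.1)) + Real.log (Nat.card H)) := by
    unfold Ent
    exact Finset.sum_congr rfl fun z _ => hkey z
  rw [h3, sum_prodW_fst hq (fun a => -Real.log (pr p₀ (fun a => (QuotientAddGroup.mk a : G ⧸ H))
        (QuotientAddGroup.mk a)) + Real.log (Nat.card H))]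
  unfold Ent
  simp_rw [mul_add]
  rw [Finset.sum_add_distrib, ← Finset.sum_mul, hp₀.sum_one, one_mul]

/-- `H(X) ≤ H(X mod H) + log |H|` -/
theorem Ent_le_mod {p₀ : G → ℝ} (hp₀ : IsPr p₀) (H : AddSubgroup G) :
    Ent p₀ (fun a => a) ≤
      Ent p₀ (fun a => (QuotientAddGroup.mk a : G ⧸ H)) + Real.log (Nat.card H) := by
  rw [← Ent_add_coset hp₀ H 0]
  have h1 := Ent_le_add (isPr_coset H (0 : G)) hp₀
  refine h1.trans (le_of_eq ?_)
  have h2 := Ent_equiv (w := prodW (cosetLaw H (0 : G)) p₀) (w' := prodW p₀ (cosetLaw H (0 : G)))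
    (Equiv.prodComm G G) (fun o => by unfold prodW; exact mul_comm _ _)
    (fun z : G × G => z.1 + z.2)
  rw [← h2]
  refine Ent_congr fun o o' => ?_
  simp only [Equiv.prodComm_apply, Prod.fst_swap, Prod.snd_swap]
  rw [add_comm o.1 o.2, add_comm o'.1 o'.2]

/-- **PF-LIM.** The final form of entropic PFR from approximate minimisers. -/
theorem lim_final {p₀ : G → ℝ} (hp₀ : IsPr p₀) {c₀ : ℝ}
    (h : ∀ ε : ℝ, 0 < ε → ∃ p : G → ℝ, IsPr p ∧
      Ent (prodW p p) (fun z => z.1 + z.2) - Ent p (fun a => a) ≤ ε ∧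
      Ent (prodW p₀ p) (fun z => z.1 + z.2) - Ent p₀ (fun a => a) / 2 -
        Ent p (fun a => a) / 2 ≤ c₀ + ε) :
    ∃ H : AddSubgroup G,
      Ent p₀ (fun a => (QuotientAddGroup.mk a : G ⧸ H)) ≤ 2 * c₀ ∧
      Real.log (Nat.card H) - (Ent p₀ (fun a => a) -
        Ent p₀ (fun a => (QuotientAddGroup.mk a : G ⧸ H))) ≤ 2 * c₀ := by
  obtain ⟨H, x₀, h1⟩ := exists_coset h
  rw [Ent_add_coset hp₀, Ent_coset] at h1
  have h2 := Ent_le_mod hp₀ H
  have h3 : 0 ≤ Ent p₀ (fun a => (QuotientAddGroup.mk a : G ⧸ H)) := Ent_nonneg hp₀ _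
  exact ⟨H, by linarith, by linarith⟩

/-- The same for variables on arbitrary finite probability spaces. -/
theorem lim_final' {Ω : Type*} [Fintype Ω] {w : Ω → ℝ} (hw : IsPr w) (X : Ω → G) {c₀ : ℝ}
    (h : ∀ ε : ℝ, 0 < ε → ∃ (Ω' : Type) (_ : Fintype Ω') (w' : Ω' → ℝ) (X' : Ω' → G), IsPr w' ∧
      Ent (prodW w' w') (fun z => X' z.1 + X' z.2) - Ent w' X' ≤ ε ∧
      Ent (prodW w w') (fun z => X z.1 + X' z.2) - Ent w X / 2 - Ent w' X' / 2 ≤ c₀ + ε) :
    ∃ H : AddSubgroup G,
      Ent w (fun o => (QuotientAddGroup.mk (X o) : G ⧸ H)) ≤ 2 * c₀ ∧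
      Real.log (Nat.card H) - (Ent w X -
        Ent w (fun o => (QuotientAddGroup.mk (X o) : G ⧸ H))) ≤ 2 * c₀ := by
  obtain ⟨H, h1, h2⟩ := lim_final (p₀ := pr w X) (isPr_pr hw X) (c₀ := c₀) (fun ε hε => by
    obtain ⟨Ω', _, w', X', hw', h1, h2⟩ := h ε hε
    refine ⟨pr w' X', isPr_pr hw' X', ?_, ?_⟩
    · rw [← Ent_add_law, ← Ent_law]
      exact h1
    · rw [← Ent_add_law, ← Ent_law, ← Ent_law]
      exact h2)
  have h3 : Ent w (fun o => (QuotientAddGroup.mk (X o) : G ⧸ H)) =
      Ent (pr w X) (fun a => (QuotientAddGroup.mk a : G ⧸ H)) :=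
    Ent_comp w X (fun a => (QuotientAddGroup.mk a : G ⧸ H))
  rw [← h3] at h1 h2
  rw [← Ent_law] at h2
  exact ⟨H, h1, h2⟩

end Group

end Pool.Agent.Helper5.PF
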