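import Pool.Agent.Helper5.PF.Lim
import Pool.Agent.Helper15.BP.Law

/-! PF-LIM in the language of `Helper15/BP/Law.lean`. -/

set_option autoImplicit false

namespace Pool.Agent.Helper5.PF

open Finset Pool.Agent.Helper15.BP

variable {G : Type} [AddCommGroup G] [Fintype G]

theorem DL_bot (p : G → ℝ) : DL p ⊥ = Real.log (Nat.card G) - EL p := by
  unfold DL EL
  rw [AddSubgroup.index_bot]
  congr 1
  refine Ent_congr fun o o' => ?_
  rw [Fam.mk_eq_iff, AddSubgroup.mem_bot, sub_eq_zero]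

/-- limits of approximate minimisers -/
theorem hlim {p : G → ℝ} (hp : IsPr p) {c₀ : ℝ}
    (h : ∀ ε : ℝ, 0 < ε → ∃ q : G → ℝ, IsPr q ∧ dd q ≤ ε ∧
      EL (conv p q) - EL p / 2 - EL q / 2 ≤ c₀ + ε) :
    ∃ H : AddSubgroup G, Real.log H.index - DL p H ≤ 2 * c₀ ∧ DL p ⊥ - DL p H ≤ 2 * c₀ := by
  obtain ⟨H, h1, h2⟩ := lim_final hp (c₀ := c₀) (fun ε hε => by
    obtain ⟨q, hq, h1, h2⟩ := h ε hε
    refine ⟨q, hq, ?_, ?_⟩
    · unfold dd EL at h1
      rw [Ent_conv] at h1
      exact h1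
    · unfold EL at h2
      rw [Ent_conv] at h2
      exact h2)
  refine ⟨H, ?_, ?_⟩
  · unfold DL
    linarith
  · rw [DL_bot]
    have h3 : Real.log (Nat.card G) = Real.log (Nat.card H) + Real.log H.index := by
      rw [← Real.log_mul, ← Nat.cast_mul, AddSubgroup.card_mul_index]
      · exact_mod_cast (Nat.card_pos (α := H)).ne'
      · exact_mod_cast (AddSubgroup.index_ne_zero_of_finite (H := H))
    unfold DL EL
    linarith

end Pool.Agent.Helper5.PF
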